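import Pool.Agent.AND2B.Env
import Pool.Agent.Helper16_AC.All
import Pool.Agent.Helper34_ACX.P8
import Pool.Agent.Helper79_ACX.V0

/-!
# The protocol for a functional, one environment

The fields of the analysis (without `out`), the numbers and the end give the bound of the mean of the
functional.
-/

set_option autoImplicit false

open MeasureTheory ProbabilityTheory

open scoped BigOperators NNReal ENNReal Matrix

noncomputable section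

namespace Pool.Agent.ACX.CORE

open Pool.Agent.AND2B
open Pool.Agent.ANP
open Pool.Agent.ANP.H16 (Ana0 ViOk ana_of_ana0)

/-- the fields of the analysis, without `out` -/
structure Fields {d : ℕ} (Z : Prd d) (V : Env d) : Prop where
  ini : Z.Ini V
  beg : Z.Beg V
  mmon : Z.Mmon V
  flo : Z.Flo V
  fin : Z.Fin V
  rbeg : Z.Rbeg V
  rmon : Z.Rmon V
  kil : Z.Kil V
  rfin : Z.Rfin V

theorem win_empty {X : Type} [Fintype X] (a : X → ℝ) (r : X → ℝ≥0) : Win ∅ a r (1 / 4) := by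
  unfold Win
  rw [measureReal_empty]
  norm_num

/-- the analysis with the empty failure set -/
def Fields.ana0 {d : ℕ} {Z : Prd d} {V : Env d} (h : Fields Z V) :
    Ana0 V.G d 0 ∅ V.th V.kk V.cl V.Kn V.Dn V.p V.Vi :=
  { HS := Z.HS V, HM := Z.HM V, HR := Z.HR V, m0 := fun _ => V.m, ini := h.ini, beg := h.beg,
    mmon := h.mmon, flo := h.flo, fin := h.fin, rbeg := h.rbeg, rmon := h.rmon, kil := h.kil,
    rfin := h.rfin, out := fun _ _ a r _ _ _ _ _ _ => win_empty a r }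

theorem viok0 {d : ℕ} (V : Env d) : ViOk (∅ : Set (V.X → ℝ)) V.Vi :=
  { mono := (AND2B.H16.viok (d := d) (M := 2 ^ V.μ) V.E V.A V.ε V.R V.L).mono
    win := fun _ a r _ _ => win_empty a r }

/-- CORE, one environment, one start -/
theorem core0 {d : ℕ} (Z : Prd d) (V : Env d) (hth : 1 / 2 ≤ V.th) (hth1 : V.th < 1)
    (hw : 0 < V.w) (hS : V.Sc) (hN : 1 ≤ V.N) (hF : Fields Z V) {ca cb δ : ℝ} {π c W : ℕ → ℝ}
    (hn : H34.Num8 d V.th V.J V.β V.w V.N V.μ V.kk V.l V.r ca cb π c W)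
    (hsum : ∑ j ∈ Finset.range (V.G.N + 2), W j *
      ∑ B ∈ ({B | V.G.bl j B = B} : Finset V.X), H72.QQ V.G.ch V.G.J (fun i => π i.1) j B ≤ δ)
    {K e : ℝ} (φ : (V.X → ℝ) → ℝ) (ψ : V.X → (V.X → ℝ) → ℝ)
    (hφ : Measurable φ) (hφ1 : ∀ U, 0 ≤ φ U ∧ φ U ≤ 1) (hψ : ∀ x, Measurable (ψ x))
    (hψ1 : ∀ x U, 0 ≤ ψ x U ∧ ψ x U ≤ K) (he : 0 ≤ e)
    (hcost : ∀ (x : V.X) (a : V.X → ℝ) (r : V.X → ℝ≥0), 0 < r x →
      ∫ U, ψ x U ∂(gm a r) ≤ (ca + cb / Real.sqrt (r x)) / ((2 : ℝ) ^ V.μ) ^ d)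
    (hwl : ∀ U : V.X → ℝ, ¬ WL V.E V.L U → φ U = 0)
    (V₀ : V.X → ℝ) (m₁ : V.X → ℂ) (hini : Z.HS V 0 0 ⟨V₀, fun _ => V.cl 0, m₁⟩ Finset.univ)
    (hend : ∀ (T : Cfg V.X) (run : Finset V.X), Z.HS V (V.N + 1) (V.kk (V.N + 1)) T run →
      V.Fc (V.N + 1) (V.kk (V.N + 1)) ∅ T run → (∀ x, x ∉ run → T.s x = 0) →
      φ T.V ≤ e + ∑ x ∈ Finset.univ \ run, ψ x T.V) :
    ∫ U, φ U ∂(gm V₀ fun _ => V.cl 0 - V.cl (V.kk (V.N + 1))) ≤ e + δ := by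
  have hth0 : 0 < V.th := lt_of_lt_of_le (by norm_num) hth
  have hcl : ∀ k, 0 < V.cl k := fun k => by
    unfold Env.cl AND2B.cl
    positivity
  have hG : GeoOk V.G d := ANP.H61.trg d V.μ V.l _ hS.lm V.J V.N
  have h := ANP.AC.prt2T V.X V.G d 0 V.th V.kk V.cl V.Kn V.Dn V.p π c W K e φ ψ
    (ana_of_ana0 (viok0 V) hcl hF.ana0) V₀ m₁ hφ hφ1 hψ hψ1 he hG hS.scl hth0 hth1 hS.dn hS.k0
    hS.km (cl_succ V.w V.th) (hcl 0) hN
    (fun n => by unfold Env.p pf; split_ifs <;> positivity) hn.coin hn.coin1 hn.dens hn.c0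
    (fun n h1 h2 x a r hr => ?_) hn.W0 hn.wgt hn.W1 hn.W2 hn.W3 (Or.inr hini) ?_
  · refine h.trans ?_
    linarith
  · obtain ⟨h3, h4⟩ := hn.cost n h1 h2 (r x) hr
    exact (hcost x a r h3).trans h4
  · intro T run hHS hFc hdead
    rcases hHS with hVi | hHS
    · obtain ⟨D, _, hD⟩ := hVi
      rw [hwl T.V fun hWL => hD (hWL D)]
      exact add_nonneg he (Finset.sum_nonneg fun x _ => (hψ1 x _).1)
    · exact hend T run hHS hFc hdead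

/-- CORE, one environment: the start is averaged. `IniV` : the start `V₀`, `|V₀| ≤ ρ₀`, with the gauge
`m₁ V₀`. -/
theorem core1 {d : ℕ} (Z : Prd d) (V : Env d) (hth : 1 / 2 ≤ V.th) (hth1 : V.th < 1)
    (hw : 0 < V.w) (hS : V.Sc) (hN : 1 ≤ V.N) (hF : Fields Z V) {ca cb δ : ℝ} {π c W : ℕ → ℝ}
    (hn : H34.Num8 d V.th V.J V.β V.w V.N V.μ V.kk V.l V.r ca cb π c W)
    (hsum : ∑ j ∈ Finset.range (V.G.N + 2), W j *
      ∑ B ∈ ({B | V.G.bl j B = B} : Finset V.X), H72.QQ V.G.ch V.G.J (fun i => π i.1) j B ≤ δ)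
    {K e : ℝ} (φ : (V.X → ℝ) → ℝ) (ψ : V.X → (V.X → ℝ) → ℝ)
    (hφ : Measurable φ) (hφ1 : ∀ U, 0 ≤ φ U ∧ φ U ≤ 1) (hψ : ∀ x, Measurable (ψ x))
    (hψ1 : ∀ x U, 0 ≤ ψ x U ∧ ψ x U ≤ K) (he : 0 ≤ e) (hδ : 0 ≤ δ)
    (hcost : ∀ (x : V.X) (a : V.X → ℝ) (r : V.X → ℝ≥0), 0 < r x →
      ∫ U, ψ x U ∂(gm a r) ≤ (ca + cb / Real.sqrt (r x)) / ((2 : ℝ) ^ V.μ) ^ d)
    (hwl : ∀ U : V.X → ℝ, ¬ WL V.E V.L U → φ U = 0)
    (ρ₀ : ℝ) (hini : ∀ V₀ : V.X → ℝ, (∀ x, |V₀ x| ≤ ρ₀) →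
      ∃ m₁ : V.X → ℂ, Z.HS V 0 0 ⟨V₀, fun _ => V.cl 0, m₁⟩ Finset.univ)
    (hend : ∀ (T : Cfg V.X) (run : Finset V.X), Z.HS V (V.N + 1) (V.kk (V.N + 1)) T run →
      V.Fc (V.N + 1) (V.kk (V.N + 1)) ∅ T run → (∀ x, x ∉ run → T.s x = 0) →
      φ T.V ≤ e + ∑ x ∈ Finset.univ \ run, ψ x T.V) :
    ∫ U, φ U ∂(gm (fun _ : V.X => 0) fun _ => V.w) ≤ e + δ +
      (gm (fun _ : V.X => 0) (fun _ => V.cl (V.kk (V.N + 1)))).real {V₀ | ∃ x, ρ₀ < |V₀ x|} := by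
  have hc0 : V.cl 0 = V.w := by
    unfold Env.cl AND2B.cl
    rw [pow_zero, mul_one]
  have hfw : V.cl (V.kk (V.N + 1)) ≤ V.w := by
    unfold Env.cl AND2B.cl
    exact mul_le_of_le_one_right zero_le (pow_le_one₀ zero_le hth1.le)
  refine H79.v0_step V.w _ hfw φ hφ (fun U => (hφ1 U).1) (fun U => (hφ1 U).2) _ ρ₀
    (add_nonneg he hδ) fun V₀ hV₀ => ?_
  obtain ⟨m₁, hm₁⟩ := hini V₀ hV₀
  have h := core0 Z V hth hth1 hw hS hN hF hn hsum φ ψ hφ hφ1 hψ hψ1 he hcost hwl V₀ m₁ hm₁ hend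
  rw [hc0] at h
  exact h

end Pool.Agent.ACX.CORE
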